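import Mathlib
import Pool.Agent.Lib_helper18.TFF.F7

/-!
# Liouville's function along the thin family `n² + b²`, `b ≤ x^β`

For every `0 < β < 1`, for almost all `b ≤ x^β`, both signs are taken by `λ(n² + b²)` for a
positive proportion of the `n ≤ x`.
-/

set_option autoImplicit false

namespace Pool.Agent.Results.MP_892e4c_nt.ThinFamilies

/-- The Liouville function extended to the integers: `λ(0) = 0` and, for `m ≠ 0`,
`λ(m) = (-1)^Ω(|m|)`, where `Ω` counts prime factors with multiplicity. -/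
def liouville (m : ℤ) : ℤ :=
  if m = 0 then 0 else (-1) ^ (ArithmeticFunction.cardFactors m.natAbs)

open Classical in
/-- The integer `b` is good at `x`: the sum of `λ(n² + b²)` over `1 ≤ n ≤ x` is at most
`(1 - β/2 + ε) x` in absolute value, and each of the signs `1`, `-1` is taken by `λ(n² + b²)` for
at least `(β/4 - ε) x` of the integers `1 ≤ n ≤ x`. -/
def Good (β ε x : ℝ) (b : ℕ) : Prop :=
  |((∑ n ∈ Finset.Icc 1 ⌊x⌋₊, liouville ((n : ℤ) ^ 2 + (b : ℤ) ^ 2) : ℤ) : ℝ)| ≤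
      (1 - β / 2 + ε) * x ∧
    ∀ s : ℤ, (s = 1 ∨ s = -1) → (β / 4 - ε) * x ≤
      (((Finset.Icc 1 ⌊x⌋₊).filter (fun n : ℕ =>
        liouville ((n : ℤ) ^ 2 + (b : ℤ) ^ 2) = s)).card : ℝ)

open Classical in
/-- Let `0 < β < 1` and `ε > 0`. For all large `x` all but at most `ε x^β` of the integers
`1 ≤ b ≤ x^β` are good at `x`. -/
theorem result (β : ℝ) (hβ : 0 < β) (hβ1 : β < 1) (ε : ℝ) (hε : 0 < ε) :
    ∃ x₀ : ℝ, ∀ x : ℝ, x₀ ≤ x →
      (((Finset.Icc 1 ⌊x ^ β⌋₊).filter (fun b : ℕ => ¬ Good β ε x b)).card : ℝ) ≤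
        ε * x ^ β := by
  obtain ⟨x₀, h⟩ := Pool.Agent.TF.thin_families β hβ hβ1 ε hε
  refine ⟨max x₀ (max 1 (1 / ε)), fun x hx => ?_⟩
  have hx0 : x₀ ≤ x := le_trans (le_max_left _ _) hx
  have hx1 : 1 ≤ x := le_trans (le_trans (le_max_left _ _) (le_max_right _ _)) hx
  have hxε : 1 / ε ≤ x := le_trans (le_trans (le_max_right _ _) (le_max_right _ _)) hx
  refine le_trans ?_ (h x hx0)
  have hlam : ∀ n b : ℕ, 1 ≤ n →
      ((liouville ((n : ℤ) ^ 2 + (b : ℤ) ^ 2) : ℤ) : ℝ) = Pool.Agent.T2.lam (n ^ 2 + b ^ 2) := by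
    intro n b hn
    unfold liouville Pool.Agent.T2.lam
    have h1 : ((n : ℤ) ^ 2 + (b : ℤ) ^ 2) = ((n ^ 2 + b ^ 2 : ℕ) : ℤ) := by push_cast; ring
    have h2 : n ^ 2 + b ^ 2 ≠ 0 := by positivity
    rw [h1, Int.natAbs_natCast, if_neg (by exact_mod_cast h2), if_neg h2]
    push_cast
    rfl
  have hpm : ∀ n b : ℕ, 1 ≤ n → liouville ((n : ℤ) ^ 2 + (b : ℤ) ^ 2) = 1 ∨
      liouville ((n : ℤ) ^ 2 + (b : ℤ) ^ 2) = -1 := by
    intro n b hn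
    unfold liouville
    have h2 : ((n : ℤ) ^ 2 + (b : ℤ) ^ 2) ≠ 0 := by positivity
    rw [if_neg h2]
    exact neg_one_pow_eq_or ℤ _
  refine Nat.cast_le.2 (Finset.card_le_card fun b hb0 => ?_)
  rw [Finset.mem_filter] at hb0 ⊢
  refine ⟨hb0.1, ?_⟩
  by_contra hb
  rw [not_lt] at hb
  apply hb0.2
  have hS : ((∑ n ∈ Finset.Icc 1 ⌊x⌋₊, liouville ((n : ℤ) ^ 2 + (b : ℤ) ^ 2) : ℤ) : ℝ) =
      ∑ n ∈ Finset.Icc 1 ⌊x⌋₊, Pool.Agent.T2.lam (n ^ 2 + b ^ 2) := by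
    push_cast
    exact Finset.sum_congr rfl fun n hn => hlam n b (Finset.mem_Icc.1 hn).1
  refine ⟨by rw [hS]; exact hb, fun s hs => ?_⟩
  -- the two classes
  have hcard : ((⌊x⌋₊ : ℕ) : ℝ) =
      (((Finset.Icc 1 ⌊x⌋₊).filter (fun n : ℕ =>
        liouville ((n : ℤ) ^ 2 + (b : ℤ) ^ 2) = s)).card : ℝ) +
      (((Finset.Icc 1 ⌊x⌋₊).filter (fun n : ℕ =>
        ¬ liouville ((n : ℤ) ^ 2 + (b : ℤ) ^ 2) = s)).card : ℝ) := by
    have h1 := Finset.card_filter_add_card_filter_not (s := Finset.Icc 1 ⌊x⌋₊)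
      (fun n : ℕ => liouville ((n : ℤ) ^ 2 + (b : ℤ) ^ 2) = s)
    rw [Nat.card_Icc, Nat.add_sub_cancel] at h1
    exact_mod_cast h1.symm
  have hsum : (s : ℝ) * ∑ n ∈ Finset.Icc 1 ⌊x⌋₊, Pool.Agent.T2.lam (n ^ 2 + b ^ 2) =
      (((Finset.Icc 1 ⌊x⌋₊).filter (fun n : ℕ =>
        liouville ((n : ℤ) ^ 2 + (b : ℤ) ^ 2) = s)).card : ℝ) -
      (((Finset.Icc 1 ⌊x⌋₊).filter (fun n : ℕ =>
        ¬ liouville ((n : ℤ) ^ 2 + (b : ℤ) ^ 2) = s)).card : ℝ) := by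
    rw [Finset.card_filter, Finset.card_filter]
    push_cast
    rw [← Finset.sum_sub_distrib, Finset.mul_sum]
    refine Finset.sum_congr rfl fun n hn => ?_
    rw [← hlam n b (Finset.mem_Icc.1 hn).1]
    rcases hpm n b (Finset.mem_Icc.1 hn).1 with h3 | h3 <;> rcases hs with h4 | h4 <;>
      simp [h3, h4]
  have habs : -((1 - β / 2 + ε) * x) ≤
      (s : ℝ) * ∑ n ∈ Finset.Icc 1 ⌊x⌋₊, Pool.Agent.T2.lam (n ^ 2 + b ^ 2) := by
    have h5 := abs_le.1 hb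
    rcases hs with h4 | h4
    · rw [h4]; push_cast; linarith [h5.1]
    · rw [h4]; push_cast; linarith [h5.2]
  have hfl : x - 1 < (⌊x⌋₊ : ℝ) := Nat.sub_one_lt_floor x
  have hε1 : 1 ≤ ε * x := by
    rw [div_le_iff₀ hε] at hxε
    linarith
  nlinarith

end Pool.Agent.Results.MP_892e4c_nt.ThinFamilies
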